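import Mathlib

/-!
The coefficient truncation operator on complex polynomials: definitions, the
behaviour of coefficients under the digit product, and the averaging step.
-/

namespace V11320.TR
open MeasureTheory Polynomial

/-- Radial truncation of one coefficient to the closed unit disc. -/
noncomputable def tr (a : ℂ) : ℂ := if ‖a‖ < 1 then a else a / (‖a‖ : ℂ)

/-- The coefficient truncation operator. -/
noncomputable def S (P : ℂ[X]) : ℂ[X] := ∑ j ∈ P.support, monomial j (tr (P.coeff j))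

/-- `∫_{|z|=1} |P|^p |dz|`. -/
noncomputable def J (p : ℝ) (P : ℂ[X]) : ℝ :=
  ∫ θ in (0 : ℝ)..(2 * Real.pi), ‖P.eval (Complex.exp (θ * Complex.I))‖ ^ p

lemma tr_zero : tr 0 = 0 := by simp [tr]

lemma S_coeff (P : ℂ[X]) (n : ℕ) : (S P).coeff n = tr (P.coeff n) := by
  unfold S
  rw [Polynomial.finsetSum_coeff]
  simp only [Polynomial.coeff_monomial]
  rw [Finset.sum_ite_eq' P.support n]
  split_ifs with h
  · rfl
  · rw [Polynomial.notMem_support_iff.mp h, tr_zero]

/-- the coefficients of `G(X) A(X^5)` when `deg G < 5` -/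
lemma coeff_mul_expand (G A : ℂ[X]) (hG : G.natDegree < 5) (n : ℕ) :
    (G * expand ℂ 5 A).coeff n = G.coeff (n % 5) * A.coeff (n / 5) := by
  rw [Polynomial.coeff_mul]
  rw [Finset.sum_eq_single (n % 5, 5 * (n / 5))]
  · congr 1
    rw [Polynomial.coeff_expand (by norm_num), if_pos (Dvd.intro _ rfl),
      Nat.mul_div_cancel_left _ (by norm_num)]
  · rintro ⟨i, j⟩ hij hne
    have hij : i + j = n := Finset.HasAntidiagonal.mem_antidiagonal.mp hij
    simp only
    rw [Polynomial.coeff_expand (by norm_num)]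
    split_ifs with hd
    · by_cases hi : i < 5
      · exfalso
        apply hne
        obtain ⟨k, rfl⟩ := hd
        have h1 : n % 5 = i := by omega
        have h2 : n / 5 = k := by omega
        rw [h1, h2]
      · rw [Polynomial.coeff_eq_zero_of_natDegree_lt (by omega), zero_mul]
    · rw [mul_zero]
  · intro h
    exfalso
    apply h
    exact Finset.HasAntidiagonal.mem_antidiagonal.mpr (Nat.mod_add_div n 5)

/-- the one-variable factor -/
noncomputable def F (ε : ℝ) : ℂ[X] :=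
  C (-(ε : ℂ)) + X + X ^ 2 - X ^ 3 - C (ε : ℂ) * X ^ 4

noncomputable def G : ℂ[X] := X + X ^ 2 - X ^ 3

lemma F_deg (ε : ℝ) : (F ε).natDegree < 5 := by
  have : (F ε).natDegree ≤ 4 := by unfold F; compute_degree
  omega

lemma G_deg : G.natDegree < 5 := by
  have : G.natDegree ≤ 3 := by unfold G; compute_degree
  omega

lemma F_coeff (ε : ℝ) (n : ℕ) : (F ε).coeff n =
    if n = 0 then -(ε : ℂ) else if n = 1 then 1 else if n = 2 then 1 else
      if n = 3 then -1 else if n = 4 then -(ε : ℂ) else 0 := by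
  by_cases h : n < 5
  · unfold F
    interval_cases n <;> simp [Polynomial.coeff_X, Polynomial.coeff_C, Polynomial.coeff_X_pow]
  · rw [Polynomial.coeff_eq_zero_of_natDegree_lt (lt_of_lt_of_le (F_deg ε) (by omega))]
    rw [if_neg (by omega), if_neg (by omega), if_neg (by omega), if_neg (by omega),
      if_neg (by omega)]

lemma G_coeff (n : ℕ) : G.coeff n =
    if n = 1 then 1 else if n = 2 then 1 else if n = 3 then -1 else (0 : ℂ) := by
  by_cases h : n < 5
  · unfold G
    interval_cases n <;> simp [Polynomial.coeff_X, Polynomial.coeff_X_pow]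
  · rw [Polynomial.coeff_eq_zero_of_natDegree_lt (lt_of_lt_of_le G_deg (by omega))]
    rw [if_neg (by omega), if_neg (by omega), if_neg (by omega)]

/-- the inductive property -/
structure Good (ε ρ p : ℝ) (m : ℕ) (A B : ℂ[X]) : Prop where
  deg : A.natDegree < 5 ^ m
  coeff : ∀ n, (B.coeff n = A.coeff n ∧ ‖A.coeff n‖ = 1) ∨ (B.coeff n = 0 ∧ ‖A.coeff n‖ ≤ ε)
  ne : A ≠ 0
  int : ρ ^ m * J p A ≤ J p B

/-- rotation of the variable -/
noncomputable def rot (φ : ℝ) (H : ℂ[X]) : ℂ[X] :=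
  H.comp (C (Complex.exp (φ * Complex.I)) * X)

lemma rot_coeff (φ : ℝ) (H : ℂ[X]) (n : ℕ) :
    (rot φ H).coeff n = H.coeff n * Complex.exp (φ * Complex.I) ^ n := by
  unfold rot
  rw [Polynomial.comp_C_mul_X_coeff]

lemma norm_e (φ : ℝ) : ‖Complex.exp (φ * Complex.I)‖ = 1 := Complex.norm_exp_ofReal_mul_I φ

lemma rot_deg (φ : ℝ) (H : ℂ[X]) (hH : H.natDegree < 5) : (rot φ H).natDegree < 5 := by
  by_contra h
  push Not at h
  have h1 : (rot φ H) ≠ 0 := by
    intro h0; rw [h0] at h; simp at h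
  have h2 := Polynomial.leadingCoeff_ne_zero.mpr h1
  rw [Polynomial.leadingCoeff, rot_coeff,
    Polynomial.coeff_eq_zero_of_natDegree_lt (lt_of_lt_of_le hH h), zero_mul] at h2
  exact h2 rfl

lemma step_coeff (ε : ℝ) (hε : 0 < ε) (hε1 : ε < 1) (A B : ℂ[X]) (φ : ℝ)
    (h : ∀ n, (B.coeff n = A.coeff n ∧ ‖A.coeff n‖ = 1) ∨ (B.coeff n = 0 ∧ ‖A.coeff n‖ ≤ ε))
    (n : ℕ) :
    ((rot φ G * expand ℂ 5 B).coeff n = (rot φ (F ε) * expand ℂ 5 A).coeff n ∧
      ‖(rot φ (F ε) * expand ℂ 5 A).coeff n‖ = 1) ∨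
    ((rot φ G * expand ℂ 5 B).coeff n = 0 ∧
      ‖(rot φ (F ε) * expand ℂ 5 A).coeff n‖ ≤ ε) := by
  rw [coeff_mul_expand _ _ (rot_deg φ G G_deg), coeff_mul_expand _ _ (rot_deg φ (F ε) (F_deg ε)),
    rot_coeff, rot_coeff, norm_mul, norm_mul, norm_pow, norm_e, one_pow, mul_one]
  have hd : n % 5 < 5 := Nat.mod_lt _ (by norm_num)
  have hA1 : ‖A.coeff (n / 5)‖ ≤ 1 := by
    rcases h (n / 5) with h1 | h1
    · exact h1.2.le
    · exact h1.2.trans hε1.le
  have key : (G.coeff (n % 5) = (F ε).coeff (n % 5) ∧ ‖(F ε).coeff (n % 5)‖ = 1) ∨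
      (G.coeff (n % 5) = 0 ∧ ‖(F ε).coeff (n % 5)‖ = ε) := by
    rw [G_coeff, F_coeff]
    generalize n % 5 = d at hd
    interval_cases d <;> simp [abs_of_pos hε]
  rcases key with ⟨k1, k2⟩ | ⟨k1, k2⟩
  · rw [k1, k2, one_mul]
    rcases h (n / 5) with ⟨h1, h2⟩ | ⟨h1, h2⟩
    · left; rw [h1]; exact ⟨rfl, h2⟩
    · right; rw [h1]; exact ⟨by simp, h2⟩
  · right
    rw [k1, k2]
    refine ⟨by simp, ?_⟩
    calc ε * ‖A.coeff (n / 5)‖ ≤ ε * 1 := mul_le_mul_of_nonneg_left hA1 hε.le
      _ = ε := mul_one ε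

lemma step_deg (ε : ℝ) (A : ℂ[X]) (φ : ℝ) (m : ℕ) (h : A.natDegree < 5 ^ m) :
    (rot φ (F ε) * expand ℂ 5 A).natDegree < 5 ^ (m + 1) := by
  have h1 := Polynomial.natDegree_mul_le (p := rot φ (F ε)) (q := expand ℂ 5 A)
  have h2 := rot_deg φ (F ε) (F_deg ε)
  rw [Polynomial.natDegree_expand] at h1
  rw [pow_succ]
  omega

lemma step_ne (ε : ℝ) (A : ℂ[X]) (φ : ℝ) (h : A ≠ 0) :
    (rot φ (F ε) * expand ℂ 5 A) ≠ 0 := by
  apply mul_ne_zero
  · intro h0
    have h1 := rot_coeff φ (F ε) 1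
    rw [h0, F_coeff] at h1
    simp only [Polynomial.coeff_zero, one_ne_zero, if_false, if_true, pow_one, one_mul] at h1
    exact Complex.exp_ne_zero _ h1.symm
  · rw [Ne, Polynomial.expand_eq_zero (by norm_num)]
    exact h

/-! ### the averaging step -/

lemma cont_h (p : ℝ) (hp : 0 < p) (H : ℂ[X]) :
    Continuous fun x : ℝ => ‖H.eval (Complex.exp (x * Complex.I))‖ ^ p := by
  apply Continuous.rpow_const _ (fun _ => Or.inr hp.le)
  apply Continuous.norm
  exact H.continuous.comp (by fun_prop)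

lemma per_h (p : ℝ) (H : ℂ[X]) :
    Function.Periodic (fun x : ℝ => ‖H.eval (Complex.exp (x * Complex.I))‖ ^ p) (2 * Real.pi) := by
  intro x
  have : Complex.exp (((x + 2 * Real.pi : ℝ) : ℂ) * Complex.I) = Complex.exp (x * Complex.I) := by
    rw [Complex.ofReal_add, add_mul]
    have := Complex.exp_periodic (x * Complex.I)
    push_cast
    exact this
  simp only [this]

lemma dil (g : ℝ → ℝ) (hper : Function.Periodic g (2 * Real.pi)) (hg : Continuous g) :
    ∫ θ in (0 : ℝ)..(2 * Real.pi), g (5 * θ) = ∫ θ in (0 : ℝ)..(2 * Real.pi), g θ := by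
  rw [intervalIntegral.integral_comp_mul_left g (by norm_num : (5 : ℝ) ≠ 0)]
  have h1 := hper.intervalIntegral_add_zsmul_eq 5 0 (fun t₁ t₂ => hg.intervalIntegrable _ _)
  simp only [zero_add, zsmul_eq_mul, Int.cast_ofNat] at h1
  rw [mul_zero, h1]
  simp

lemma avg (p : ℝ) (hp : 0 < p) (H A : ℂ[X]) :
    ∫ φ in (0 : ℝ)..(2 * Real.pi), J p (rot φ H * expand ℂ 5 A) = J p H * J p A := by
  have hJ : ∀ φ : ℝ, J p (rot φ H * expand ℂ 5 A) = ∫ θ in (0 : ℝ)..(2 * Real.pi),
      ‖H.eval (Complex.exp (((φ + θ : ℝ) : ℂ) * Complex.I))‖ ^ p *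
      ‖A.eval (Complex.exp (((5 * θ : ℝ) : ℂ) * Complex.I))‖ ^ p := by
    intro φ
    unfold J
    apply intervalIntegral.integral_congr
    intro θ _
    simp only
    rw [Polynomial.eval_mul, norm_mul, Real.mul_rpow (norm_nonneg _) (norm_nonneg _)]
    congr 2
    · congr 1
      unfold rot
      rw [Polynomial.eval_comp, Polynomial.eval_mul, Polynomial.eval_C, Polynomial.eval_X]
      congr 1
      rw [← Complex.exp_add]
      congr 1
      push_cast
      ring
    · congr 1
      rw [Polynomial.expand_eval]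
      congr 1
      rw [← Complex.exp_nat_mul]
      congr 1
      push_cast
      ring
  have hh := cont_h p hp H
  have hg := cont_h p hp A
  have h5 : Continuous fun θ : ℝ => ‖A.eval (Complex.exp (((5 * θ : ℝ) : ℂ) * Complex.I))‖ ^ p :=
    hg.comp (continuous_const.mul continuous_id)
  simp_rw [hJ]
  rw [intervalIntegral_intervalIntegral_swap]
  · have hin : ∀ θ : ℝ, ∫ φ in (0 : ℝ)..(2 * Real.pi),
        ‖H.eval (Complex.exp (((φ + θ : ℝ) : ℂ) * Complex.I))‖ ^ p *
        ‖A.eval (Complex.exp (((5 * θ : ℝ) : ℂ) * Complex.I))‖ ^ p =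
        J p H * ‖A.eval (Complex.exp (((5 * θ : ℝ) : ℂ) * Complex.I))‖ ^ p := by
      intro θ
      rw [intervalIntegral.integral_mul_const]
      congr 1
      have h1 := intervalIntegral.integral_comp_add_right
        (a := 0) (b := 2 * Real.pi)
        (fun x : ℝ => ‖H.eval (Complex.exp ((x : ℂ) * Complex.I))‖ ^ p) θ
      rw [h1]
      have h2 := (per_h p H).intervalIntegral_add_eq (0 + θ) 0
      rw [zero_add] at h2 ⊢
      rw [add_comm (2 * Real.pi) θ, h2, zero_add]
      rfl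
    simp_rw [hin]
    rw [intervalIntegral.integral_const_mul]
    congr 1
    have := dil _ (per_h p A) hg
    exact this
  · have hc : Continuous (Function.uncurry fun (φ θ : ℝ) =>
        ‖H.eval (Complex.exp (((φ + θ : ℝ) : ℂ) * Complex.I))‖ ^ p *
        ‖A.eval (Complex.exp (((5 * θ : ℝ) : ℂ) * Complex.I))‖ ^ p) := by
      apply Continuous.mul
      · exact hh.comp (continuous_fst.add continuous_snd)
      · exact h5.comp continuous_snd
    apply IntegrableOn.mono_set (t := Set.uIcc 0 (2 * Real.pi) ×ˢ Set.uIcc 0 (2 * Real.pi))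
    · exact hc.continuousOn.integrableOn_compact (isCompact_uIcc.prod isCompact_uIcc)
    · exact Set.prod_mono Set.uIoc_subset_uIcc Set.uIoc_subset_uIcc

lemma cont_J (p : ℝ) (hp : 0 < p) (H A : ℂ[X]) :
    Continuous fun φ : ℝ => J p (rot φ H * expand ℂ 5 A) := by
  unfold J
  apply intervalIntegral.continuous_parametric_intervalIntegral_of_continuous'
  simp only [Function.uncurry_def]
  apply Continuous.rpow_const _ (fun _ => Or.inr hp.le)
  apply Continuous.norm
  have : (fun a : ℝ × ℝ => (rot a.1 H * expand ℂ 5 A).eval (Complex.exp (a.2 * Complex.I))) =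
      fun a : ℝ × ℝ => H.eval (Complex.exp (a.1 * Complex.I) * Complex.exp (a.2 * Complex.I)) *
        A.eval (Complex.exp (a.2 * Complex.I) ^ 5) := by
    funext a
    rw [Polynomial.eval_mul, Polynomial.expand_eval]
    unfold rot
    rw [Polynomial.eval_comp, Polynomial.eval_mul, Polynomial.eval_C, Polynomial.eval_X]
  rw [this]
  apply Continuous.mul
  · exact H.continuous.comp (by fun_prop)
  · exact A.continuous.comp (by fun_prop)

lemma J_nonneg (p : ℝ) (P : ℂ[X]) : 0 ≤ J p P := by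
  apply intervalIntegral.integral_nonneg (by positivity)
  intro x _
  positivity

lemma step_int (p : ℝ) (hp : 0 < p) (ε ρ : ℝ) (m : ℕ) (hρ : ρ * J p (F ε) = J p G)
    (A B : ℂ[X]) (h : ρ ^ m * J p A ≤ J p B) :
    ∃ φ : ℝ, ρ ^ (m + 1) * J p (rot φ (F ε) * expand ℂ 5 A) ≤ J p (rot φ G * expand ℂ 5 B) := by
  by_contra hc
  push Not at hc
  have c1 := cont_J p hp (F ε) A
  have c2 := cont_J p hp G B
  have h1 : 0 < ∫ φ in (0 : ℝ)..(2 * Real.pi),
      (ρ ^ (m + 1) * J p (rot φ (F ε) * expand ℂ 5 A) - J p (rot φ G * expand ℂ 5 B)) := by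
    apply intervalIntegral.intervalIntegral_pos_of_pos_on
    · exact ((continuous_const.mul c1).sub c2).intervalIntegrable _ _
    · intro x _
      have := hc x
      linarith
    · positivity
  have h1' := intervalIntegral.integral_sub (μ := volume) (a := 0) (b := 2 * Real.pi)
    (f := fun φ => ρ ^ (m + 1) * J p (rot φ (F ε) * expand ℂ 5 A))
    (g := fun φ => J p (rot φ G * expand ℂ 5 B))
    ((continuous_const.mul c1).intervalIntegrable _ _) (c2.intervalIntegrable _ _)
  rw [h1', intervalIntegral.integral_const_mul, avg p hp, avg p hp] at h1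
  have h2 : ρ ^ (m + 1) * (J p (F ε) * J p A) = J p G * (ρ ^ m * J p A) := by
    rw [← hρ]; ring
  rw [h2] at h1
  have h3 : J p G * (ρ ^ m * J p A) ≤ J p G * J p B :=
    mul_le_mul_of_nonneg_left h (J_nonneg p G)
  linarith

theorem exists_good (p : ℝ) (hp : 0 < p) (ε ρ : ℝ) (hε : 0 < ε) (hε1 : ε < 1)
    (hρ : ρ * J p (F ε) = J p G) (m : ℕ) : ∃ A B : ℂ[X], Good ε ρ p m A B := by
  induction m with
  | zero =>
    refine ⟨1, 1, ⟨by simp, ?_, one_ne_zero, by simp⟩⟩
    intro n
    by_cases hn : n = 0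
    · left; subst hn; simp
    · right
      rw [Polynomial.coeff_one, if_neg hn]
      simp [hε.le]
  | succ m ih =>
    obtain ⟨A, B, hAB⟩ := ih
    obtain ⟨φ, hφ⟩ := step_int p hp ε ρ m hρ A B hAB.int
    exact ⟨_, _, ⟨step_deg ε A φ m hAB.deg, step_coeff ε hε hε1 A B φ hAB.coeff,
      step_ne ε A φ hAB.ne, hφ⟩⟩

end V11320.TR
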