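import Pool.Agent.V11320.TR.A

/-!
The strict inequality `‖F‖_p < ‖G‖_p` for `0 < p < 2` and the power growth of the
norms of the coefficient truncation operator.
-/

namespace V11320.TR
open MeasureTheory Polynomial

lemma norm_F (ε θ : ℝ) : ‖(F ε).eval (Complex.exp (θ * Complex.I))‖ ^ 2 =
    3 - 2 * Real.cos (2 * θ) + (-(4 * ε * Real.cos (2 * θ)) + 4 * ε ^ 2 * Real.cos (2 * θ) ^ 2) := by
  set c := Real.cos θ with hc
  set s := Real.sin θ with hs
  have hcs : c ^ 2 + s ^ 2 = 1 := Real.cos_sq_add_sin_sq θ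
  have hz : Complex.exp (θ * Complex.I) = (c : ℂ) + s * Complex.I := by
    rw [Complex.exp_mul_I, ← Complex.ofReal_cos, ← Complex.ofReal_sin]
  have hcsC : (c : ℂ) ^ 2 + (s : ℂ) ^ 2 = 1 := by
    rw [← Complex.ofReal_pow, ← Complex.ofReal_pow, ← Complex.ofReal_add, hcs, Complex.ofReal_one]
  have hI : Complex.I ^ 2 = -1 := Complex.I_sq
  have hzz : ((c : ℂ) + s * Complex.I) * ((c : ℂ) - s * Complex.I) = 1 := by
    linear_combination hcsC - (s : ℂ) ^ 2 * hI
  have h2 : Real.cos (2 * θ) = c ^ 2 - s ^ 2 := by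
    rw [Real.cos_two_mul]
    linarith
  have hev : (F ε).eval (Complex.exp (θ * Complex.I)) =
      Complex.exp (θ * Complex.I) ^ 2 *
        (((1 - 2 * ε * (c ^ 2 - s ^ 2) : ℝ) : ℂ) + ((-2 * s : ℝ) : ℂ) * Complex.I) := by
    unfold F
    simp only [eval_sub, eval_add, eval_mul, eval_C, eval_pow, eval_X]
    rw [hz]
    push_cast
    set z := (c : ℂ) + s * Complex.I with hzd
    set zb := (c : ℂ) - s * Complex.I with hzbd
    have e1 : (2 * ((c : ℂ) ^ 2 - (s : ℂ) ^ 2)) = z ^ 2 + zb ^ 2 := by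
      rw [hzd, hzbd]
      linear_combination (-2 * (s : ℂ) ^ 2) * hI
    have e2 : (-2 * (s : ℂ)) * Complex.I = zb - z := by
      rw [hzd, hzbd]; ring
    have e3 : z ^ 2 * (1 - 2 * (ε : ℂ) * ((c : ℂ) ^ 2 - (s : ℂ) ^ 2) + -2 * (s : ℂ) * Complex.I) =
        z ^ 2 * (1 - (ε : ℂ) * (z ^ 2 + zb ^ 2) + (zb - z)) := by
      rw [← e1, ← e2]; ring
    rw [e3]
    linear_combination ((-(ε : ℂ)) * (-(z * zb) - 1) - z) * hzz
  rw [hev, norm_mul, norm_pow, norm_e, one_pow, one_mul, ← Complex.normSq_eq_norm_sq,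
    Complex.normSq_add_mul_I, h2]
  linear_combination 2 * hcs

lemma J_F (p ε : ℝ) : J p (F ε) = ∫ θ in (0 : ℝ)..(2 * Real.pi),
    (3 - 2 * Real.cos (2 * θ) + (-(4 * ε * Real.cos (2 * θ)) +
      4 * ε ^ 2 * Real.cos (2 * θ) ^ 2)) ^ (p / 2) := by
  unfold J
  apply intervalIntegral.integral_congr
  intro θ _
  simp only
  rw [← norm_F, ← Real.rpow_natCast, ← Real.rpow_mul (norm_nonneg _)]
  congr 1
  push_cast
  ring

lemma G_eq : G = F 0 := by
  unfold F G
  simp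

/-- Bernoulli tangent bound -/
lemma tang (x y s : ℝ) (hx : 0 < x) (hy : 0 ≤ y) (hs : 0 ≤ s) (hs1 : s ≤ 1) :
    y ^ s ≤ x ^ s + s * x ^ (s - 1) * (y - x) := by
  have h1 : (1 + (y / x - 1)) ^ s ≤ 1 + s * (y / x - 1) :=
    rpow_one_add_le_one_add_mul_self (by have : 0 ≤ y / x := by positivity
                                         linarith) hs hs1
  have h2 : 1 + (y / x - 1) = y / x := by ring
  rw [h2, Real.div_rpow hy hx.le] at h1
  have hxs : 0 < x ^ s := Real.rpow_pos_of_pos hx s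
  rw [div_le_iff₀ hxs] at h1
  refine h1.trans (le_of_eq ?_)
  rw [Real.rpow_sub_one hx.ne']
  field_simp

lemma X_pos (θ : ℝ) : 1 ≤ 3 - 2 * Real.cos (2 * θ) := by
  have := Real.cos_le_one (2 * θ)
  linarith

lemma cont_X (r : ℝ) : Continuous fun θ : ℝ => (3 - 2 * Real.cos (2 * θ)) ^ r := by
  apply Continuous.rpow_const (by fun_prop)
  intro θ
  left
  have := X_pos θ
  linarith

lemma int_cos2 : ∫ θ in (0 : ℝ)..(2 * Real.pi), Real.cos (2 * θ) = 0 := by
  rw [intervalIntegral.integral_comp_mul_left Real.cos (by norm_num : (2 : ℝ) ≠ 0)]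
  rw [integral_cos]
  have : Real.sin (2 * (2 * Real.pi)) = 0 := by
    have := Real.sin_nat_mul_pi 4
    rw [show (2 * (2 * Real.pi)) = ((4 : ℕ) : ℝ) * Real.pi by push_cast; ring]
    exact this
  rw [this]
  simp

lemma I1_pos (s : ℝ) (hs1 : s < 1) :
    0 < ∫ θ in (0 : ℝ)..(2 * Real.pi), (3 - 2 * Real.cos (2 * θ)) ^ (s - 1) * Real.cos (2 * θ) := by
  have hle : ∀ θ : ℝ, (3 : ℝ) ^ (s - 1) * Real.cos (2 * θ) ≤
      (3 - 2 * Real.cos (2 * θ)) ^ (s - 1) * Real.cos (2 * θ) := by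
    intro θ
    have h1 := X_pos θ
    rcases le_total 0 (Real.cos (2 * θ)) with h | h
    · apply mul_le_mul_of_nonneg_right _ h
      exact Real.rpow_le_rpow_of_nonpos (by linarith) (by linarith) (by linarith)
    · apply mul_le_mul_of_nonpos_right _ h
      exact Real.rpow_le_rpow_of_nonpos (by norm_num) (by linarith) (by linarith)
  have h0 : ∫ θ in (0 : ℝ)..(2 * Real.pi), (3 : ℝ) ^ (s - 1) * Real.cos (2 * θ) = 0 := by
    rw [intervalIntegral.integral_const_mul, int_cos2, mul_zero]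
  refine lt_of_eq_of_lt h0.symm ?_
  apply intervalIntegral.integral_lt_integral_of_continuousOn_of_le_of_exists_lt
  · positivity
  · fun_prop
  · exact ((cont_X (s - 1)).mul (by fun_prop)).continuousOn
  · intro θ _
    exact hle θ
  · refine ⟨0, ⟨le_refl _, by positivity⟩, ?_⟩
    simp only [mul_zero, Real.cos_zero, mul_one]
    rw [show (3 - 2 : ℝ) = 1 by norm_num, Real.one_rpow]
    exact Real.rpow_lt_one_of_one_lt_of_neg (by norm_num) (by linarith)

lemma I_le (s : ℝ) (hs1 : s < 1) (g : ℝ → ℝ) (hg : Continuous g) (hg1 : ∀ θ, |g θ| ≤ 1) :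
    ∫ θ in (0 : ℝ)..(2 * Real.pi), (3 - 2 * Real.cos (2 * θ)) ^ (s - 1) * g θ ≤ 2 * Real.pi := by
  have : ∫ θ in (0 : ℝ)..(2 * Real.pi), (3 - 2 * Real.cos (2 * θ)) ^ (s - 1) * g θ ≤
      ∫ θ in (0 : ℝ)..(2 * Real.pi), (1 : ℝ) := by
    apply intervalIntegral.integral_mono (by positivity)
    · exact ((cont_X (s - 1)).mul hg).intervalIntegrable _ _
    · exact continuous_const.intervalIntegrable _ _
    · intro θ
      have h1 := X_pos θ
      have h2 : (3 - 2 * Real.cos (2 * θ)) ^ (s - 1) ≤ 1 :=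
        Real.rpow_le_one_of_one_le_of_nonpos h1 (by linarith)
      have h3 : 0 ≤ (3 - 2 * Real.cos (2 * θ)) ^ (s - 1) := Real.rpow_nonneg (by linarith) _
      have h4 := hg1 θ
      calc (3 - 2 * Real.cos (2 * θ)) ^ (s - 1) * g θ
          ≤ (3 - 2 * Real.cos (2 * θ)) ^ (s - 1) * 1 :=
            mul_le_mul_of_nonneg_left ((le_abs_self _).trans h4) h3
        _ ≤ 1 := by linarith
  simpa using this

/-- for `0<p<2` a small perturbation decreases the `p`-norm -/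
theorem key (p : ℝ) (hp : 0 < p) (hp2 : p < 2) :
    ∃ ε : ℝ, 0 < ε ∧ ε < 1 ∧ J p (F ε) < J p G := by
  set s := p / 2 with hs
  have hs0 : 0 < s := by positivity
  have hs1 : s < 1 := by rw [hs]; linarith
  set I1 := ∫ θ in (0 : ℝ)..(2 * Real.pi), (3 - 2 * Real.cos (2 * θ)) ^ (s - 1) * Real.cos (2 * θ)
    with hI1
  set I2 := ∫ θ in (0 : ℝ)..(2 * Real.pi),
    (3 - 2 * Real.cos (2 * θ)) ^ (s - 1) * Real.cos (2 * θ) ^ 2 with hI2
  have hI1p : 0 < I1 := I1_pos s hs1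
  have hpi := Real.pi_pos
  have hI1l : I1 ≤ 2 * Real.pi :=
    I_le s hs1 (fun θ => Real.cos (2 * θ)) (by fun_prop) (fun θ => Real.abs_cos_le_one _)
  have hI2l : I2 ≤ 2 * Real.pi := by
    apply I_le s hs1 (fun θ => Real.cos (2 * θ) ^ 2) (by fun_prop)
    intro θ
    rw [abs_pow]
    exact pow_le_one₀ (abs_nonneg _) (Real.abs_cos_le_one _)
  set ε := I1 / (4 * Real.pi) with hε
  have hε0 : 0 < ε := by positivity
  have hε1 : ε ≤ 1 / 2 := by
    rw [hε, div_le_iff₀ (by positivity)]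
    linarith
  refine ⟨ε, hε0, by linarith, ?_⟩
  have hXc := cont_X s
  have hXc1 := cont_X (s - 1)
  have hpt : ∀ θ : ℝ, (3 - 2 * Real.cos (2 * θ) + (-(4 * ε * Real.cos (2 * θ)) +
      4 * ε ^ 2 * Real.cos (2 * θ) ^ 2)) ^ s ≤ (3 - 2 * Real.cos (2 * θ)) ^ s +
      ((-(4 * ε * s)) * ((3 - 2 * Real.cos (2 * θ)) ^ (s - 1) * Real.cos (2 * θ)) +
       (4 * ε ^ 2 * s) * ((3 - 2 * Real.cos (2 * θ)) ^ (s - 1) * Real.cos (2 * θ) ^ 2)) := by
    intro θ
    have h1 := X_pos θ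
    have hy : 0 ≤ 3 - 2 * Real.cos (2 * θ) + (-(4 * ε * Real.cos (2 * θ)) +
      4 * ε ^ 2 * Real.cos (2 * θ) ^ 2) := by
      rw [← norm_F]; positivity
    have := tang (3 - 2 * Real.cos (2 * θ)) _ s (by linarith) hy hs0.le hs1.le
    refine this.trans (le_of_eq ?_)
    ring
  have hc2 : Continuous fun θ : ℝ => (3 - 2 * Real.cos (2 * θ)) ^ (s - 1) * Real.cos (2 * θ) :=
    hXc1.mul (by fun_prop)
  have hc3 : Continuous fun θ : ℝ =>
      (3 - 2 * Real.cos (2 * θ)) ^ (s - 1) * Real.cos (2 * θ) ^ 2 := hXc1.mul (by fun_prop)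
  have hG : J p G = ∫ θ in (0 : ℝ)..(2 * Real.pi), (3 - 2 * Real.cos (2 * θ)) ^ s := by
    rw [G_eq, J_F]
    simp [hs]
  rw [hG, J_F, ← hs]
  have hmono : ∫ θ in (0 : ℝ)..(2 * Real.pi), (3 - 2 * Real.cos (2 * θ) +
      (-(4 * ε * Real.cos (2 * θ)) + 4 * ε ^ 2 * Real.cos (2 * θ) ^ 2)) ^ s ≤
      ∫ θ in (0 : ℝ)..(2 * Real.pi), ((3 - 2 * Real.cos (2 * θ)) ^ s +
      ((-(4 * ε * s)) * ((3 - 2 * Real.cos (2 * θ)) ^ (s - 1) * Real.cos (2 * θ)) +
       (4 * ε ^ 2 * s) * ((3 - 2 * Real.cos (2 * θ)) ^ (s - 1) * Real.cos (2 * θ) ^ 2))) := by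
    apply intervalIntegral.integral_mono (by positivity)
    · apply Continuous.intervalIntegrable
      apply Continuous.rpow_const (by fun_prop)
      intro θ
      right
      exact hs0.le
    · apply Continuous.intervalIntegrable
      exact hXc.add ((continuous_const.mul hc2).add (continuous_const.mul hc3))
    · intro θ
      exact hpt θ
  have hsplit : ∫ θ in (0 : ℝ)..(2 * Real.pi), ((3 - 2 * Real.cos (2 * θ)) ^ s +
      ((-(4 * ε * s)) * ((3 - 2 * Real.cos (2 * θ)) ^ (s - 1) * Real.cos (2 * θ)) +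
       (4 * ε ^ 2 * s) * ((3 - 2 * Real.cos (2 * θ)) ^ (s - 1) * Real.cos (2 * θ) ^ 2))) =
      (∫ θ in (0 : ℝ)..(2 * Real.pi), (3 - 2 * Real.cos (2 * θ)) ^ s) +
        ((-(4 * ε * s)) * I1 + (4 * ε ^ 2 * s) * I2) := by
    have e1 := intervalIntegral.integral_add (μ := volume) (a := 0) (b := 2 * Real.pi)
      (f := fun θ => (3 - 2 * Real.cos (2 * θ)) ^ s)
      (g := fun θ => ((-(4 * ε * s)) * ((3 - 2 * Real.cos (2 * θ)) ^ (s - 1) * Real.cos (2 * θ)) +
       (4 * ε ^ 2 * s) * ((3 - 2 * Real.cos (2 * θ)) ^ (s - 1) * Real.cos (2 * θ) ^ 2)))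
      (hXc.intervalIntegrable _ _)
      (((continuous_const.mul hc2).add (continuous_const.mul hc3)).intervalIntegrable _ _)
    have e2 := intervalIntegral.integral_add (μ := volume) (a := 0) (b := 2 * Real.pi)
      (f := fun θ => (-(4 * ε * s)) * ((3 - 2 * Real.cos (2 * θ)) ^ (s - 1) * Real.cos (2 * θ)))
      (g := fun θ => (4 * ε ^ 2 * s) * ((3 - 2 * Real.cos (2 * θ)) ^ (s - 1) *
        Real.cos (2 * θ) ^ 2))
      ((continuous_const.mul hc2).intervalIntegrable _ _)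
      ((continuous_const.mul hc3).intervalIntegrable _ _)
    rw [e1, e2, intervalIntegral.integral_const_mul, intervalIntegral.integral_const_mul]
  rw [hsplit] at hmono
  have hneg : (-(4 * ε * s)) * I1 + (4 * ε ^ 2 * s) * I2 < 0 := by
    have h1 : ε * I2 ≤ ε * (2 * Real.pi) := mul_le_mul_of_nonneg_left hI2l hε0.le
    have h2 : ε * (2 * Real.pi) = I1 / 2 := by
      rw [hε]; field_simp; ring
    have h3 : ε * I2 < I1 := by linarith
    have h4 : (-(4 * ε * s)) * I1 + (4 * ε ^ 2 * s) * I2 = (4 * ε * s) * (ε * I2 - I1) := by ring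
    rw [h4]
    apply mul_neg_of_pos_of_neg (by positivity) (by linarith)
  linarith

end V11320.TR
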