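import Pool.Agent.V11320.TR.B

/-!
Power growth of the norm of the coefficient truncation operator for `0<p<2`.
-/

namespace V11320.TR
open MeasureTheory Polynomial

/-- The `L_p` (quasi-)norm on the unit circle with respect to arc length. -/
noncomputable def LpN (p : ℝ) (P : ℂ[X]) : ℝ := (J p P) ^ (1 / p)

lemma J_pos (p : ℝ) (hp : 0 < p) (P : ℂ[X]) (hP : P ≠ 0) : 0 < J p P := by
  unfold J
  apply intervalIntegral.integral_pos (by positivity) (cont_h p hp P).continuousOn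
  · intro x _
    positivity
  · by_contra hc
    push Not at hc
    apply hP
    apply Polynomial.eq_zero_of_infinite_isRoot
    have hinj : Set.InjOn (fun θ : ℝ => Complex.exp (θ * Complex.I)) (Set.Icc 0 1) := by
      intro x hx y hy hxy
      simp only at hxy
      have hpi := Real.pi_gt_three
      have h1 := Complex.exp_inj_of_neg_pi_lt_of_le_pi (x := x * Complex.I) (y := y * Complex.I)
        (by simp; linarith [hx.1]) (by simp; linarith [hx.2]) (by simp; linarith [hy.1])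
        (by simp; linarith [hy.2]) hxy
      have h2 := mul_right_cancel₀ Complex.I_ne_zero h1
      exact_mod_cast h2
    have hinf : ((fun θ : ℝ => Complex.exp (θ * Complex.I)) '' (Set.Icc 0 1)).Infinite := by
      apply Set.Infinite.image hinj
      exact Set.Icc_infinite (by norm_num)
    apply hinf.mono
    rintro z ⟨θ, hθ, rfl⟩
    have hpi := Real.pi_gt_three
    have h1 := hc θ ⟨hθ.1, by linarith [hθ.2]⟩
    have h2 : ‖P.eval (Complex.exp (θ * Complex.I))‖ ^ p = 0 :=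
      le_antisymm h1 (by positivity)
    rw [Real.rpow_eq_zero (norm_nonneg _) hp.ne', norm_eq_zero] at h2
    exact h2

lemma J_C_mul (p c : ℝ) (hc : 0 ≤ c) (P : ℂ[X]) :
    J p (C (c : ℂ) * P) = c ^ p * J p P := by
  unfold J
  rw [← intervalIntegral.integral_const_mul]
  apply intervalIntegral.integral_congr
  intro θ _
  simp only
  rw [Polynomial.eval_mul, Polynomial.eval_C, norm_mul, Complex.norm_real,
    Real.norm_of_nonneg hc, Real.mul_rpow hc (norm_nonneg _)]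

lemma J_sub_le (p : ℝ) (hp : 0 < p) (P Q : ℂ[X]) :
    J p (P - Q) ≤ 2 ^ p * (J p P + J p Q) := by
  unfold J
  have h1 := cont_h p hp P
  have h2 := cont_h p hp Q
  rw [← intervalIntegral.integral_add (h1.intervalIntegrable _ _) (h2.intervalIntegrable _ _),
    ← intervalIntegral.integral_const_mul]
  apply intervalIntegral.integral_mono (by positivity)
  · exact (cont_h p hp (P - Q)).intervalIntegrable _ _
  · exact (continuous_const.mul (h1.add h2)).intervalIntegrable _ _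
  · intro θ
    simp only
    rw [Polynomial.eval_sub]
    set x := P.eval (Complex.exp (θ * Complex.I))
    set y := Q.eval (Complex.exp (θ * Complex.I))
    have hx : 0 ≤ ‖x‖ ^ p := by positivity
    have hy : 0 ≤ ‖y‖ ^ p := by positivity
    have h2p : (0 : ℝ) < 2 ^ p := by positivity
    rcases le_total ‖x‖ ‖y‖ with h | h
    · have : ‖x - y‖ ≤ 2 * ‖y‖ := (norm_sub_le x y).trans (by linarith)
      calc ‖x - y‖ ^ p ≤ (2 * ‖y‖) ^ p := Real.rpow_le_rpow (norm_nonneg _) this hp.le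
        _ = 2 ^ p * ‖y‖ ^ p := Real.mul_rpow (by norm_num) (norm_nonneg _)
        _ ≤ 2 ^ p * (‖x‖ ^ p + ‖y‖ ^ p) := mul_le_mul_of_nonneg_left (by linarith) h2p.le
    · have : ‖x - y‖ ≤ 2 * ‖x‖ := (norm_sub_le x y).trans (by linarith)
      calc ‖x - y‖ ^ p ≤ (2 * ‖x‖) ^ p := Real.rpow_le_rpow (norm_nonneg _) this hp.le
        _ = 2 ^ p * ‖x‖ ^ p := Real.mul_rpow (by norm_num) (norm_nonneg _)
        _ ≤ 2 ^ p * (‖x‖ ^ p + ‖y‖ ^ p) := mul_le_mul_of_nonneg_left (by linarith) h2p.le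

lemma S_good (ε : ℝ) (hε : 0 < ε) (hε1 : ε < 1) (A B : ℂ[X])
    (h : ∀ n, (B.coeff n = A.coeff n ∧ ‖A.coeff n‖ = 1) ∨ (B.coeff n = 0 ∧ ‖A.coeff n‖ ≤ ε)) :
    C (((1 / ε - 1 : ℝ)) : ℂ) * B = C ((1 / ε : ℝ) : ℂ) * A - S (C ((1 / ε : ℝ) : ℂ) * A) := by
  ext n
  rw [Polynomial.coeff_C_mul, Polynomial.coeff_sub, S_coeff, Polynomial.coeff_C_mul]
  have hεi : 0 < 1 / ε := by positivity
  have hεi1 : 1 < 1 / ε := by rw [lt_div_iff₀ hε]; linarith
  have hn : ‖((1 / ε : ℝ) : ℂ) * A.coeff n‖ = (1 / ε) * ‖A.coeff n‖ := by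
    rw [norm_mul, Complex.norm_real, Real.norm_of_nonneg hεi.le]
  have hεc : ((ε : ℝ) : ℂ) ≠ 0 := by exact_mod_cast hε.ne'
  rcases h n with ⟨h1, h2⟩ | ⟨h1, h2⟩
  · have h3 : tr (((1 / ε : ℝ) : ℂ) * A.coeff n) = A.coeff n := by
      unfold tr
      rw [hn, h2, mul_one, if_neg (by linarith)]
      push_cast
      field_simp
    rw [h3, h1]
    push_cast
    ring
  · have h3 : tr (((1 / ε : ℝ) : ℂ) * A.coeff n) = ((1 / ε : ℝ) : ℂ) * A.coeff n := by
      unfold tr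
      split_ifs with h4
      · rfl
      · have h5 : ‖((1 / ε : ℝ) : ℂ) * A.coeff n‖ = 1 := by
          apply le_antisymm _ (not_lt.mp h4)
          rw [hn]
          calc 1 / ε * ‖A.coeff n‖ ≤ 1 / ε * ε := mul_le_mul_of_nonneg_left h2 hεi.le
            _ = 1 := by field_simp
        rw [h5]; simp
    rw [h3, h1]
    simp

lemma natDegree_C_mul_lt (c : ℂ) (A : ℂ[X]) (N : ℕ) (h : A.natDegree < N) :
    (C c * A).natDegree < N :=
  lt_of_le_of_lt (Polynomial.natDegree_C_mul_le c A) h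

/-- growth along `5^m` in terms of `p`-th powers -/
lemma growth (p : ℝ) (hp : 0 < p) (hp2 : p < 2) : ∃ K ρ : ℝ, 0 < K ∧ 1 < ρ ∧
    ∀ m : ℕ, ∃ P : ℂ[X], P ≠ 0 ∧ P.natDegree < 5 ^ m ∧ K * ρ ^ m * J p P ≤ J p (S P) := by
  obtain ⟨ε, hε, hε1, hlt⟩ := key p hp hp2
  have hFne : F ε ≠ 0 := by
    intro h0
    have := F_coeff ε 1
    rw [h0] at this
    simp at this
  have hF := J_pos p hp (F ε) hFne
  set ρ := J p G / J p (F ε) with hρd
  have hρ : ρ * J p (F ε) = J p G := by rw [hρd]; field_simp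
  have hρ1 : 1 < ρ := by rw [hρd, lt_div_iff₀ hF]; linarith
  set K0 := ((1 - ε) / 2) ^ p with hK0
  have hK0p : 0 < K0 := Real.rpow_pos_of_pos (by linarith) p
  refine ⟨K0 / 2, ρ, by positivity, hρ1, ?_⟩
  intro m
  obtain ⟨A, B, hAB⟩ := exists_good p hp ε ρ hε hε1 hρ m
  by_cases hbig : K0 * ρ ^ m ≤ 2
  · refine ⟨1, one_ne_zero, by simp, ?_⟩
    have hS : S 1 = 1 := by
      ext n
      rw [S_coeff, Polynomial.coeff_one]
      split_ifs
      · simp [tr]
      · exact tr_zero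
    rw [hS]
    have hJ1 := J_pos p hp 1 one_ne_zero
    have : K0 / 2 * ρ ^ m ≤ 1 := by linarith
    calc K0 / 2 * ρ ^ m * J p 1 ≤ 1 * J p 1 := mul_le_mul_of_nonneg_right this hJ1.le
      _ = J p 1 := one_mul _
  · push Not at hbig
    set P := C ((1 / ε : ℝ) : ℂ) * A with hPd
    have hεi : 0 < 1 / ε := by positivity
    have hP0 : P ≠ 0 := by
      apply mul_ne_zero _ hAB.ne
      rw [Ne, Polynomial.C_eq_zero]
      exact_mod_cast hεi.ne'
    refine ⟨P, hP0, natDegree_C_mul_lt _ _ _ hAB.deg, ?_⟩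
    have hJP := J_pos p hp P hP0
    have h1 : J p (C (((1 / ε - 1 : ℝ)) : ℂ) * B) ≤ 2 ^ p * (J p P + J p (S P)) := by
      rw [S_good ε hε hε1 A B hAB.coeff]
      exact J_sub_le p hp _ _
    have h1ε : (0 : ℝ) ≤ 1 / ε - 1 := by
      rw [sub_nonneg, le_div_iff₀ hε]; linarith
    rw [J_C_mul p _ h1ε] at h1
    have h2 : J p P = (1 / ε) ^ p * J p A := J_C_mul p _ hεi.le A
    have h3 : (1 / ε - 1) ^ p * (ρ ^ m * J p A) ≤ 2 ^ p * (J p P + J p (S P)) :=
      (mul_le_mul_of_nonneg_left hAB.int (Real.rpow_nonneg h1ε p)).trans h1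
    have h4 : (1 / ε - 1) ^ p * (ρ ^ m * J p A) = 2 ^ p * (K0 * ρ ^ m * J p P) := by
      rw [h2, hK0, Real.div_rpow (by linarith) (by norm_num)]
      have h5 : (1 / ε - 1) ^ p = (1 - ε) ^ p * (1 / ε) ^ p := by
        rw [← Real.mul_rpow (by linarith) hεi.le]
        congr 1
        field_simp
      rw [h5]
      have h2p : (2 : ℝ) ^ p ≠ 0 := by positivity
      field_simp
    rw [h4] at h3
    have h2p : (0 : ℝ) < 2 ^ p := by positivity
    have h6 := le_of_mul_le_mul_left h3 h2p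
    have h7 : K0 / 2 * ρ ^ m * J p P = K0 * ρ ^ m * J p P - K0 * ρ ^ m / 2 * J p P := by ring
    rw [h7]
    have h8 : 1 * J p P ≤ K0 * ρ ^ m / 2 * J p P :=
      mul_le_mul_of_nonneg_right (by linarith) hJP.le
    linarith

theorem power_growth (p : ℝ) (hp : 0 < p) (hp2 : p < 2) : ∃ c κ : ℝ, 0 < c ∧ 0 < κ ∧
    ∀ n : ℕ, ∃ P : ℂ[X], P ≠ 0 ∧ P.natDegree ≤ n ∧
      c * ((n : ℝ) + 1) ^ κ ≤ LpN p (S P) / LpN p P := by
  obtain ⟨K, ρ, hK, hρ, h⟩ := growth p hp hp2
  have hlog5 : 0 < Real.log 5 := Real.log_pos (by norm_num)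
  have hlogρ : 0 < Real.log ρ := Real.log_pos hρ
  have hρ0 : 0 < ρ := by linarith
  refine ⟨(K / ρ) ^ (1 / p), Real.log ρ / Real.log 5 / p, by positivity, by positivity, ?_⟩
  intro n
  obtain ⟨P, hP0, hdeg, hP⟩ := h (Nat.log 5 (n + 1))
  have hm1 : 5 ^ (Nat.log 5 (n + 1)) ≤ n + 1 := Nat.pow_log_le_self 5 (by omega)
  have hm2 : n + 1 < 5 ^ (Nat.log 5 (n + 1) + 1) := Nat.lt_pow_succ_log_self (by norm_num) _
  refine ⟨P, hP0, by omega, ?_⟩
  set m := Nat.log 5 (n + 1)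
  have hJP := J_pos p hp P hP0
  have hn1 : (0 : ℝ) < (n : ℝ) + 1 := by positivity
  have h1 : ((n : ℝ) + 1) ^ (Real.log ρ / Real.log 5) ≤ ρ ^ (m + 1) := by
    have h2 : ((n : ℝ) + 1) ≤ (5 : ℝ) ^ (m + 1) := by exact_mod_cast hm2.le
    calc ((n : ℝ) + 1) ^ (Real.log ρ / Real.log 5)
        ≤ ((5 : ℝ) ^ (m + 1)) ^ (Real.log ρ / Real.log 5) :=
          Real.rpow_le_rpow hn1.le h2 (by positivity)
      _ = ρ ^ (m + 1) := by
          rw [← Real.rpow_natCast, ← Real.rpow_mul (by norm_num), mul_comm, Real.rpow_mul (by norm_num)]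
          rw [Real.rpow_natCast]
          congr 1
          rw [Real.rpow_def_of_pos (by norm_num)]
          rw [mul_div_cancel₀ _ hlog5.ne', Real.exp_log hρ0]
  have h2 : K / ρ * ((n : ℝ) + 1) ^ (Real.log ρ / Real.log 5) ≤ J p (S P) / J p P := by
    rw [le_div_iff₀ hJP]
    refine le_trans ?_ hP
    apply mul_le_mul_of_nonneg_right _ hJP.le
    calc K / ρ * ((n : ℝ) + 1) ^ (Real.log ρ / Real.log 5) ≤ K / ρ * ρ ^ (m + 1) :=
          mul_le_mul_of_nonneg_left h1 (by positivity)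
      _ = K * ρ ^ m := by rw [pow_succ]; field_simp
  unfold LpN
  rw [← Real.div_rpow (J_nonneg p _) (J_nonneg p _)]
  calc (K / ρ) ^ (1 / p) * ((n : ℝ) + 1) ^ (Real.log ρ / Real.log 5 / p)
      = (K / ρ * ((n : ℝ) + 1) ^ (Real.log ρ / Real.log 5)) ^ (1 / p) := by
        rw [Real.mul_rpow (by positivity) (by positivity), ← Real.rpow_mul hn1.le]
        congr 2
        ring
    _ ≤ (J p (S P) / J p P) ^ (1 / p) := Real.rpow_le_rpow (by positivity) h2 (by positivity)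

end V11320.TR
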